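import Mathlib

set_option autoImplicit false

namespace Pool.Agent.Results.MP_2e66a2_lc.Exists
open MvPowerSeries Finset

section
variable {n : ℕ}

/-- `S^* = ∑ k, S ^ k`, summed coefficientwise -/
noncomputable def star (S : MvPowerSeries (Fin n) ℕ) : MvPowerSeries (Fin n) ℕ :=
  fun v => ∑ᶠ k : ℕ, coeff v (S ^ k)

/-- `ℕ`-rational series in commuting variables -/
inductive IsRat : MvPowerSeries (Fin n) ℕ → Prop
  | fin (S : MvPowerSeries (Fin n) ℕ) : {v | coeff v S ≠ 0}.Finite → IsRat S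
  | add (S T : MvPowerSeries (Fin n) ℕ) : IsRat S → IsRat T → IsRat (S + T)
  | mul (S T : MvPowerSeries (Fin n) ℕ) : IsRat S → IsRat T → IsRat (S * T)
  | star (S : MvPowerSeries (Fin n) ℕ) : IsRat S → constantCoeff S = 0 → IsRat (star S)

/-- Parikh vector -/
noncomputable def parikh (w : List (Fin n)) : Fin n →₀ ℕ := Multiset.toFinsupp (w : Multiset (Fin n))

/-- characteristic series in commuting variables -/
noncomputable def chi (L : Set (List (Fin n))) : MvPowerSeries (Fin n) ℕ :=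
  fun v => {w ∈ L | parikh w = v}.ncard
end

abbrev Ser := MvPowerSeries (Fin 3) ℕ
abbrev Mon := Fin 3 →₀ ℕ

lemma star_coeff {S : Ser} (h : constantCoeff S = 0) (v : Mon) {N : ℕ} (hN : v.degree < N) :
    coeff v (star S) = ∑ k ∈ range N, coeff v (S ^ k) := by
  refine finsum_eq_sum_of_support_subset _ fun k hk => ?_
  by_contra h'
  refine hk (coeff_of_lt_order (lt_of_lt_of_le ?_ (le_order_pow_of_constantCoeff_eq_zero k h)))
  simp only [coe_range, Set.mem_Iio, not_lt] at h'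
  exact_mod_cast hN.trans_le h'

lemma star_eq {S : Ser} (h : constantCoeff S = 0) : star S = 1 + S * star S := by
  ext v
  rw [star_coeff h v (N := v.degree + 1 + 1) (by omega), sum_range_succ', map_add, add_comm, pow_zero, coeff_mul]
  congr 1
  simp only [pow_succ', coeff_mul]
  rw [sum_comm]
  refine sum_congr rfl fun p hp => ?_
  rw [star_coeff h p.2 (N := v.degree + 1), mul_sum]
  rw [← mem_antidiagonal.1 hp, map_add]; omega

noncomputable abbrev φ : Ser →+* MvPowerSeries (Fin 3) ℤ := map (Nat.castRingHom ℤ)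

lemma φ_inj {S T : Ser} (h : φ S = φ T) : S = T := by
  ext v
  have := congrArg (coeff v) h
  simpa using this

lemma rat_mon (v : Mon) (c : ℕ) : IsRat (monomial v c : Ser) :=
  .fin _ ((Set.finite_singleton v).subset fun w hw => by
    by_contra h
    exact hw (coeff_monomial_ne h c))

lemma rat_rec {S A T : Ser} (hS : IsRat S) (h0 : constantCoeff S = 0) (hA : IsRat A) (h : T = A + S * T) :
    IsRat T := by
  have : T = star S * A := φ_inj (by
    have h1 := congrArg φ h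
    have h2 := congrArg φ (star_eq h0)
    simp only [map_add, map_mul, map_one] at h1 h2 ⊢
    linear_combination (φ (star S)) * h1 - φ T * h2)
  exact this ▸ .mul _ _ (.star _ hS h0) hA

def d (v : Mon) : ℕ := v 0 + v 1 + v 2

def Pu (T : Ser) (C : ℕ) (v : Mon) : Prop := ∃ w : Mon, 0 < d w ∧ w 0 = 0 ∧ d w ≤ C ∧ ∀ t : ℕ, coeff (v + t • w) T ≠ 0

lemma mul_ne {S T : Ser} {u v : Mon} (h1 : coeff u S ≠ 0) (h2 : coeff v T ≠ 0) : coeff (u + v) (S * T) ≠ 0 := by
  rw [coeff_mul, Ne, sum_eq_zero_iff]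
  intro h
  exact mul_ne_zero h1 h2 (h (u, v) (by simp))

lemma of_mul_ne {S T : Ser} {v : Mon} (h : coeff v (S * T) ≠ 0) :
    ∃ a b, coeff a S ≠ 0 ∧ coeff b T ≠ 0 ∧ v = a + b := by
  rw [coeff_mul] at h
  obtain ⟨p, hp, h⟩ := exists_ne_zero_of_sum_ne_zero h
  exact ⟨p.1, p.2, left_ne_zero_of_mul h, right_ne_zero_of_mul h, (mem_antidiagonal.1 hp).symm⟩

lemma pump {T : Ser} (h : IsRat T) : ∃ C, ∀ v, coeff v T ≠ 0 → C * (v 0 + 1) ≤ d v → Pu T C v := by
  induction h with
  | fin S h =>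
    obtain ⟨C, hC⟩ := (h.image d).bddAbove
    refine ⟨C + 1, fun v h1 h2 => ?_⟩
    have := hC ⟨v, h1, rfl⟩
    nlinarith
  | add S T _ _ h1 h2 =>
    obtain ⟨C, hC⟩ := h1
    obtain ⟨D, hD⟩ := h2
    refine ⟨C + D, fun v h1 h2 => ?_⟩
    by_cases h : coeff v S = 0
    · obtain ⟨w, a, b, c, e⟩ := hD v (by simpa [h] using h1) (by nlinarith)
      exact ⟨w, a, b, by omega, fun t => by simp [e t]⟩
    · obtain ⟨w, a, b, c, e⟩ := hC v h (by nlinarith)
      exact ⟨w, a, b, by omega, fun t => by simp [e t]⟩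
  | mul S T _ _ h1 h2 =>
    obtain ⟨C, hC⟩ := h1
    obtain ⟨D, hD⟩ := h2
    refine ⟨C + D, fun v h1 h2 => ?_⟩
    obtain ⟨x, y, hx, hy, rfl⟩ := of_mul_ne h1
    by_cases h : C * (x 0 + 1) ≤ d x
    · obtain ⟨w, a, b, c, e⟩ := hC x hx h
      exact ⟨w, a, b, by omega, fun t => by rw [add_right_comm]; exact mul_ne (e t) hy⟩
    · obtain ⟨w, a, b, c, e⟩ := hD y hy (by simp only [d, Finsupp.add_apply] at *; nlinarith)
      exact ⟨w, a, b, by omega, fun t => by rw [add_assoc]; exact mul_ne hx (e t)⟩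
  | star S _ h0 h1 =>
    obtain ⟨C, hC⟩ := h1
    have up : ∀ x y, coeff x S ≠ 0 → coeff y (star S) ≠ 0 → coeff (x + y) (star S) ≠ 0 := fun x y hx hy => by
      rw [star_eq h0, map_add]
      have := mul_ne hx hy
      omega
    have key : ∀ k v, coeff v (S ^ k) ≠ 0 → coeff v (star S) ≠ 0 ∧ (d v ≤ 2 * C * v 0 ∨ Pu (star S) C v) := by
      intro k
      induction k with
      | zero =>
        intro v hv
        obtain rfl : v = 0 := by
          by_contra h
          simp [coeff_one, h] at hv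
        exact ⟨by rw [star_eq h0, map_add]; simp, .inl (by simp [d])⟩
      | succ k ih =>
        intro v hv
        rw [pow_succ'] at hv
        obtain ⟨x, y, hx, hy, rfl⟩ := of_mul_ne hv
        obtain ⟨h1, h2⟩ := ih y hy
        refine ⟨up x y hx h1, ?_⟩
        rcases h2 with h2 | ⟨w, a, b, c, e⟩
        swap
        · exact .inr ⟨w, a, b, c, fun t => by rw [add_assoc]; exact up _ _ hx (e t)⟩
        by_cases h : C * (x 0 + 1) ≤ d x
        · obtain ⟨w, a, b, c, e⟩ := hC x hx h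
          exact .inr ⟨w, a, b, c, fun t => by rw [add_right_comm]; exact up _ _ (e t) h1⟩
        by_cases h3 : x 0 = 0
        · refine .inr ⟨x, Nat.pos_of_ne_zero fun h4 => hx ?_, h3, by rw [h3] at h; omega, fun t => ?_⟩
          · obtain rfl : x = 0 := by
              ext i; simp only [d] at h4; fin_cases i <;> simp <;> omega
            simpa using h0
          · induction t with
            | zero => simpa using up x y hx h1
            | succ t ih => rw [succ_nsmul, ← add_assoc, add_comm]; exact up _ _ hx ih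
        · left
          have := Nat.pos_of_ne_zero h3
          simp only [d, Finsupp.add_apply] at *
          nlinarith
    refine ⟨2 * C + 1, fun v h1 h2 => ?_⟩
    rw [star_coeff h0 v (Nat.lt_succ_self _)] at h1
    obtain ⟨k, -, hk⟩ := exists_ne_zero_of_sum_ne_zero h1
    rcases (key k v hk).2 with h | ⟨w, a, b, c, e⟩
    · nlinarith
    · exact ⟨w, a, b, by omega, e⟩

noncomputable def e (i j : ℕ) : Mon := Finsupp.equivFunOnFinite.symm ![i, i + 2 * j, i + j]

lemma e_add (i j a b : ℕ) : e (i + a) (j + b) = e i j + e a b := by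
  ext k; fin_cases k <;> simp [e] <;> ring

lemma e_inj {i j a b : ℕ} (h : e i j = e a b) : i = a ∧ j = b := by
  have h0 := DFunLike.congr_fun h 0
  have h2 := DFunLike.congr_fun h 2
  simp [e] at h0 h2
  omega

open Classical in
noncomputable def E (f : ℕ → ℕ → ℕ) : Ser := fun v => if ∃ i j, v = e i j then f (v 0) (v 2 - v 0) else 0

lemma E_e (f : ℕ → ℕ → ℕ) (i j : ℕ) : coeff (e i j) (E f) = f i j := by
  show E f _ = _
  rw [E, if_pos ⟨i, j, rfl⟩]; simp [e]

lemma E_ne (f : ℕ → ℕ → ℕ) {v : Mon} (h : ¬ ∃ i j, v = e i j) : coeff v (E f) = 0 := if_neg h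

lemma E_add (f g : ℕ → ℕ → ℕ) : E f + E g = E fun i j => f i j + g i j := by
  ext v
  by_cases h : ∃ i j, v = e i j
  · obtain ⟨i, j, rfl⟩ := h
    simp [E_e]
  · simp [E_ne _ h]

lemma E_mon (a b c : ℕ) (f : ℕ → ℕ → ℕ) : monomial (e a b) c * E f =
    E fun i j => if a ≤ i ∧ b ≤ j then c * f (i - a) (j - b) else 0 := by
  ext v
  by_cases h : ∃ i j, v = e a b + e i j
  · obtain ⟨i, j, rfl⟩ := h
    rw [coeff_add_monomial_mul, ← e_add, E_e, E_e]; simp
  · have : coeff v (monomial (e a b) c * E f) = 0 := by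
      rw [coeff_monomial_mul]
      split_ifs with h1
      · rw [E_ne, mul_zero]
        rintro ⟨i, j, h2⟩
        exact h ⟨i, j, by rw [← h2, add_tsub_cancel_of_le h1]⟩
      · rfl
    rw [this]
    by_cases h' : ∃ i j, v = e i j
    · obtain ⟨i, j, rfl⟩ := h'
      rw [E_e, if_neg]
      rintro ⟨h1, h2⟩
      exact h ⟨i - a, j - b, by rw [← e_add]; congr 1 <;> omega⟩
    · rw [E_ne _ h']

lemma e00 : e 0 0 = 0 := by ext k; fin_cases k <;> simp [e]

lemma E_one : E (fun i j => if i = 0 ∧ j = 0 then 1 else 0) = 1 := by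
  ext v
  by_cases h : ∃ i j, v = e i j
  · obtain ⟨i, j, rfl⟩ := h
    rw [E_e, coeff_one, ← e00]
    exact if_congr ⟨fun h => by rw [h.1, h.2], e_inj⟩ rfl rfl
  · rw [E_ne _ h, coeff_one, if_neg fun h' => h ⟨0, 0, by rw [h', e00]⟩]

lemma cc {a b : ℕ} (c : ℕ) (h : 0 < a + b) : constantCoeff (monomial (e a b) c : Ser) = 0 := by
  rw [← coeff_zero_eq_constantCoeff_apply, coeff_monomial_ne]
  intro h'
  have := e_inj (e00.trans h')
  omega

lemma stepI (c : ℕ) {g : ℕ → ℕ → ℕ} (f : ℕ → ℕ → ℕ) (h0 : ∀ j, f 0 j = g 0 j)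
    (h1 : ∀ i j, f (i + 1) j = g (i + 1) j + c * f i j) : E f = E g + monomial (e 1 0) c * E f := by
  rw [E_mon, E_add]
  congr 1; funext i j
  rcases i with _ | i <;> simp [h0, h1]

lemma stepJ (c : ℕ) {g : ℕ → ℕ → ℕ} (f : ℕ → ℕ → ℕ) (h0 : ∀ i, f i 0 = g i 0)
    (h1 : ∀ i j, f i (j + 1) = g i (j + 1) + c * f i j) : E f = E g + monomial (e 0 1) c * E f := by
  rw [E_mon, E_add]
  congr 1; funext i j
  rcases j with _ | j <;> simp [h0, h1]

lemma ratJ (c : ℕ) {g : ℕ → ℕ → ℕ} (hg : IsRat (E g)) (f : ℕ → ℕ → ℕ) (h0 : ∀ i, f i 0 = 0)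
    (h1 : ∀ i j, f i (j + 1) = g i j + c * f i j) : IsRat (E f) := by
  have h := IsRat.mul _ _ (rat_mon (e 0 1) 1) hg
  rw [E_mon] at h
  exact rat_rec (rat_mon _ c) (cc c one_pos) h (stepJ c f (by simp [h0]) (by simp [h1]))

lemma ratA {f g : ℕ → ℕ → ℕ} (hf : IsRat (E f)) (hg : IsRat (E g)) : IsRat (E fun i j => f i j + g i j) :=
  E_add f g ▸ .add _ _ hf hg

def G (c i j : ℕ) : ℕ := if j = 0 then c ^ i else 0

lemma G_eq (c : ℕ) : E (G c) = 1 + monomial (e 1 0) c * E (G c) := by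
  rw [← E_one]
  refine stepI c _ (by simp [G]) fun i j => ?_
  by_cases h : j = 0 <;> simp [G, h, pow_succ']

lemma W_eq (c b : ℕ) : E (fun i j => c ^ i * b ^ j) = E (G c) + monomial (e 0 1) b * E fun i j => c ^ i * b ^ j :=
  stepJ b _ (by simp [G]) fun i j => by simp [G]; ring

lemma ratW (c b : ℕ) : IsRat (E fun i j => c ^ i * b ^ j) :=
  rat_rec (rat_mon _ b) (cc b one_pos) (rat_rec (rat_mon _ c) (cc c one_pos) (rat_mon 0 1) (G_eq c)) (W_eq c b)

def uu : ℕ → ℕ | 0 => 0 | j + 1 => 2 * j + uu j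
def tt : ℕ → ℕ | 0 => 0 | j + 1 => 2 * uu j + 1 + 3 * tt j
def vv : ℕ → ℕ | 0 => 0 | i + 1 => 3 + 4 * vv i

lemma uu_eq (j : ℕ) : uu j + j = j ^ 2 := by induction j <;> simp [uu] <;> nlinarith
lemma tt_eq (j : ℕ) : tt j + 1 + j ^ 2 = 3 ^ j := by
  induction j with
  | zero => rfl
  | succ j ih => have := uu_eq j; rw [tt, pow_succ 3]; nlinarith
lemma vv_eq (i : ℕ) : vv i + 1 = 4 ^ i := by induction i <;> simp [vv, pow_succ] <;> omega

lemma ratId (c : ℕ) : IsRat (E fun i j => c ^ i * j) :=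
  ratJ 1 (ratW c 1) _ (by simp) fun i j => by ring

lemma ratU (c : ℕ) : IsRat (E fun i j => c ^ i * uu j) :=
  ratJ 1 (ratA (ratId c) (ratId c)) _ (by simp [uu]) fun i j => by rw [uu]; ring

lemma ratT : IsRat (E fun i j => 4 ^ i * tt j) :=
  ratJ 3 (ratA (ratA (ratU 4) (ratU 4)) (ratW 4 1)) _ (by simp [tt]) fun i j => by rw [tt]; ring

lemma ratV : IsRat (E fun i j => vv i * j ^ 2) := by
  have h := IsRat.mul _ _ (rat_mon (e 1 0) 3) (ratA (ratU 1) (ratId 1))
  rw [E_mon] at h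
  exact rat_rec (rat_mon _ 4) (cc 4 one_pos) h (stepI 4 _ (by simp [vv]) fun i j => by
    simp [vv, uu_eq]; ring)

def sq (i j : ℕ) : ℕ := ((2 : ℤ) ^ i - j).natAbs ^ 2

lemma split : ∃ A, IsRat A ∧ E (fun i j => 4 ^ i * 3 ^ j) = A + E sq := by
  refine ⟨_, ratA (ratA ratT ratV) (ratA (ratId 2) (ratId 2)), ?_⟩
  rw [E_add]
  congr 1; funext i j
  have h1 := tt_eq j
  have h2 := vv_eq i
  have h3 : (4 : ℤ) ^ i = (2 ^ i) ^ 2 := by rw [← pow_mul, mul_comm, pow_mul]; norm_num
  zify [sq] at h1 h2 ⊢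
  rw [sq_abs]
  linear_combination (-4 ^ i) * h1 - j ^ 2 * h2 + h3

lemma not_rat : ¬ IsRat (E sq) := fun h => by
  obtain ⟨C, hC⟩ := pump h
  obtain ⟨i, j, h1, h2⟩ : ∃ i j, j + C.factorial = 2 ^ i ∧ C * (i + 1) ≤ j := by
    have hf := C.factorial_pos
    set m := C.factorial + 2 * C with hm
    have h1 : m < 2 ^ m := Nat.lt_two_pow_self
    have h2 : C.factorial + C * (2 * m + 1) ≤ 2 ^ (2 * m) := by
      rw [mul_comm 2 m, pow_mul]; nlinarith
    exact ⟨2 * m, 2 ^ (2 * m) - C.factorial, by omega, by omega⟩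
  have h3 : ∀ i j, sq i j ≠ 0 ↔ j ≠ 2 ^ i := fun i j => by
    simp only [sq, ne_eq, pow_eq_zero_iff two_ne_zero, Int.natAbs_eq_zero, sub_eq_zero]
    exact not_congr ⟨fun h => by exact_mod_cast h.symm, fun h => by simp [h]⟩
  obtain ⟨w, a, b, c, f⟩ := hC (e i j) (by rw [E_e, h3]; have := C.factorial_pos; omega)
    (by simp [d, e]; omega)
  obtain ⟨i', j', h4⟩ : ∃ i' j', e i j + w = e i' j' := by
    by_contra h'
    exact f 1 (by rw [one_smul, E_ne _ h'])
  have k0 := DFunLike.congr_fun h4 0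
  have k1 := DFunLike.congr_fun h4 1
  have k2 := DFunLike.congr_fun h4 2
  simp [e] at k0 k1 k2
  simp only [d] at a c
  obtain ⟨t, ht⟩ := Nat.dvd_factorial (m := w 2) (n := C) (by omega) (by omega)
  have h5 : e i j + t • w = e i (2 ^ i) := by
    have : w 1 = 2 * w 2 := by omega
    ext k; fin_cases k <;> simp [e, b, ← h1, ht, this] <;> ring
  have := f t
  rw [h5, E_e, h3] at this
  exact this rfl

lemma fin_words (v : Mon) : {w : List (Fin 3) | parikh w = v}.Finite :=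
  (List.finite_length_eq (Fin 3) (Finsupp.toMultiset v).card).subset fun w hw => by
    rw [← hw]; simp [parikh]

lemma parikh_cons (a : Fin 3) (w : List (Fin 3)) : parikh (a :: w) = Finsupp.single a 1 + parikh w := by
  rw [parikh, ← Multiset.cons_coe, ← Multiset.singleton_add, Multiset.toFinsupp_add, Multiset.toFinsupp_singleton]
  rfl

lemma univ_eq : chi (Set.univ : Set (List (Fin 3))) = 1 + (X 0 + X 1 + X 2) * chi Set.univ := by
  ext v
  have h1 : ∀ a : Fin 3, coeff v (X a * chi Set.univ) = {w | parikh w = v ∧ w.head? = some a}.ncard := fun a => by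
    rw [X, coeff_monomial_mul]
    split_ifs with h
    · rw [one_mul]
      show Set.ncard _ = _
      rw [← Set.ncard_image_of_injective _ (List.cons_injective (a := a))]
      congr 1; ext w
      constructor
      · rintro ⟨u, ⟨-, h1⟩, rfl⟩
        exact ⟨by rw [parikh_cons, h1, add_tsub_cancel_of_le h], rfl⟩
      · rintro ⟨h1, h2⟩
        obtain ⟨u, rfl⟩ := List.head?_eq_some_iff.1 h2
        exact ⟨u, ⟨trivial, by rw [← h1, parikh_cons, add_tsub_cancel_left]⟩, rfl⟩
    · rw [eq_comm, Set.ncard_eq_zero ((fin_words v).subset fun w hw => hw.1), Set.eq_empty_iff_forall_notMem]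
      rintro w ⟨h1, h2⟩
      obtain ⟨u, rfl⟩ := List.head?_eq_some_iff.1 h2
      exact h (by rw [← h1, parikh_cons]; exact le_self_add)
  have h2 : coeff v (1 : Ser) = {w | parikh w = v ∧ w.head? = none}.ncard := by
    rw [coeff_one]
    split_ifs with h
    · rw [eq_comm, Set.ncard_eq_one]
      exact ⟨[], by ext w; simp +contextual [h, parikh]⟩
    · rw [eq_comm, Set.ncard_eq_zero ((fin_words v).subset fun w hw => hw.1), Set.eq_empty_iff_forall_notMem]
      rintro w ⟨h1, h2⟩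
      obtain rfl := List.head?_eq_none_iff.1 h2
      exact h (by simpa [parikh] using h1.symm)
  have hf : ∀ o, {w : List (Fin 3) | parikh w = v ∧ w.head? = o}.Finite := fun o =>
    (fin_words v).subset fun w hw => hw.1
  simp only [add_mul, map_add, h1, h2]
  have hd : ∀ o o', o ≠ o' → Disjoint {w : List (Fin 3) | parikh w = v ∧ w.head? = o}
      {w | parikh w = v ∧ w.head? = o'} := fun o o' h => Set.disjoint_left.2 fun w a b => h (a.2.symm.trans b.2)
  rw [← Set.ncard_union_eq (hd _ _ (by decide)) (hf _) (hf _),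
    ← Set.ncard_union_eq (Set.disjoint_union_left.2 ⟨hd _ _ (by decide), hd _ _ (by decide)⟩)
      ((hf _).union (hf _)) (hf _),
    ← Set.ncard_union_eq (Set.disjoint_union_right.2 ⟨Set.disjoint_union_right.2
      ⟨hd _ _ (by decide), hd _ _ (by decide)⟩, hd _ _ (by decide)⟩) (hf _) (((hf _).union (hf _)).union (hf _))]
  show Set.ncard _ = _
  congr 1; ext w
  have : ∀ o : Option (Fin 3), o = none ∨ (o = some 0 ∨ o = some 1) ∨ o = some 2 := by decide
  have := this w.head?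
  simp only [Set.mem_ofPred_eq, Set.mem_union, Set.mem_univ, true_and]
  tauto

lemma total : ∃ A, IsRat A ∧ chi (Set.univ : Set (List (Fin 3))) = A + E sq := by
  obtain ⟨A, hA, h⟩ := split
  have hX : ∀ a : Fin 3, IsRat (X a : Ser) := fun a => rat_mon _ _
  have hc : ∀ c : ℕ, IsRat (c : Ser) := fun c => by simpa using rat_mon 0 c
  let σ : Ser := X 0 + X 1 + X 2
  have hσ : IsRat σ := .add _ _ (.add _ _ (hX 0) (hX 1)) (hX 2)
  have h3 : constantCoeff (σ * σ * σ) = 0 := by simp [σ]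
  have hZ : IsRat (star (σ * σ * σ)) := .star _ (.mul _ _ (.mul _ _ hσ hσ) hσ) h3
  let B : Ser := X 0 * X 0 * X 0 + X 1 * X 1 * X 1 + X 2 * X 2 * X 2 + ((3 : ℕ) : Ser) * (X 0 * X 0 * X 1 +
    X 0 * X 0 * X 2 + X 0 * X 1 * X 1 + X 0 * X 2 * X 2 + X 1 * X 2 * X 2) + ((2 : ℕ) : Ser) * X 0 * X 1 * X 2 +
    ((12 : ℕ) : Ser) * X 0 * X 1 * X 2 * X 1 * X 1 * X 2
  have hB : IsRat B := by
    simp only [B]
    repeat' first | exact hX _ | exact hc _ | exact hσ | apply IsRat.add | apply IsRat.mul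
  refine ⟨(σ + σ * σ) * star (σ * σ * σ) + star (σ * σ * σ) * E (fun i j => 4 ^ i * 3 ^ j) * B + A,
    .add _ _ (.add _ _ (.mul _ _ (.add _ _ hσ (.mul _ _ hσ hσ)) hZ) (.mul _ _ (.mul _ _ hZ (ratW 4 3)) hB)) hA, ?_⟩
  have m1 : (monomial (e 1 0) 4 : Ser) = ((4 : ℕ) : Ser) * X 0 * X 1 * X 2 := by
    rw [← map_natCast (C : ℕ →+* Ser), ← monomial_zero_eq_C_apply]
    simp only [X, monomial_mul_monomial]
    congr 2; ext k; fin_cases k <;> simp [e]
  have m2 : (monomial (e 0 1) 3 : Ser) = ((3 : ℕ) : Ser) * X 1 * X 1 * X 2 := by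
    rw [← map_natCast (C : ℕ →+* Ser), ← monomial_zero_eq_C_apply]
    simp only [X, monomial_mul_monomial]
    congr 2; ext k; fin_cases k <;> simp [e]
  rw [add_assoc, ← h]
  refine φ_inj ?_
  have a1 := congrArg φ univ_eq
  have a2 := congrArg φ (star_eq h3)
  have a3 := congrArg φ (G_eq 4)
  have a4 := congrArg φ (W_eq 4 3)
  rw [m1] at a3
  rw [m2] at a4
  simp only [B, σ, map_add, map_mul, map_one, map_natCast] at a1 a2 a3 a4 ⊢
  set N := φ (chi Set.univ)
  set Z := φ (star _)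
  set W := φ (E fun i j => 4 ^ i * 3 ^ j)
  set x := φ (X 0)
  set y := φ (X 1)
  set z := φ (X 2)
  push_cast at *
  linear_combination (W - N) * a2 + (1 + (x + y + z) + (x + y + z) ^ 2) * Z * a1 -
    Z * ((1 - 4 * x * y * z) * a4 + a3)

theorem result : ∃ (n : ℕ) (L : Set (List (Fin n))), IsRat (chi L) ∧ ¬ IsRat (chi Lᶜ) := by
  obtain ⟨A, hA, h⟩ := total
  have h1 : ∀ v, {w : List (Fin 3) | parikh w = v}.ncard = coeff v A + coeff v (E sq) := fun v => by
    rw [← map_add, ← h]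
    show _ = Set.ncard _
    simp
  have h2 : ∀ v, ∃ t ⊆ {w : List (Fin 3) | parikh w = v}, t.ncard = coeff v A := fun v =>
    Set.exists_subset_card_eq (by rw [h1]; omega)
  choose t ht ht' using h2
  refine ⟨3, {w | w ∈ t (parikh w)}, ?_, ?_⟩
  · convert hA
    ext v
    rw [← ht']
    show Set.ncard _ = _
    congr 1; ext w
    exact ⟨fun ⟨a, b⟩ => b ▸ a, fun a => ⟨by rwa [Set.mem_ofPred_eq, ht v a], ht v a⟩⟩
  · convert not_rat
    ext v
    have := Set.ncard_sdiff_add_ncard_of_subset (ht v) (fin_words v)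
    rw [h1, ht', add_comm, add_right_inj] at this
    rw [← this]
    show Set.ncard _ = _
    congr 1; ext w
    exact ⟨fun ⟨a, b⟩ => ⟨b, b ▸ a⟩, fun ⟨a, b⟩ => ⟨by rwa [Set.mem_compl_iff, Set.mem_ofPred_eq, a], a⟩⟩

end Pool.Agent.Results.MP_2e66a2_lc.Exists
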